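import Mathlib
import Pool.Agent.Helper648.FX.Final

set_option autoImplicit false

open Filter Topology

namespace Pool.Agent.Results.MP_152764_nt.UpToFive

/-- (1) For every real `c` with `0 < c ≤ 5`, the set of integers `n` whose orbit under the `5x+1`
map reaches `1` in fewer than `c log n` steps has natural density zero.
(2) More precisely, at most `22700 N^0.999` integers `n < N` reach `1` in fewer than `5 log n`
steps. -/
theorem result :
    (∀ c : ℝ, 0 < c → c ≤ 5 →
      Tendsto
        (fun N : ℕ =>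
          (({n : ℕ | n < N ∧ ∃ k : ℕ, 1 ≤ k ∧
              (fun m : ℕ => if m % 2 = 0 then m / 2 else (5 * m + 1) / 2)^[k] n = 1 ∧
              (k : ℝ) < c * Real.log n}.ncard : ℝ) / (N : ℝ)))
        atTop (𝓝 0)) ∧
    (∀ N : ℕ, 1 ≤ N →
      ({n : ℕ | n < N ∧ ∃ k : ℕ, 1 ≤ k ∧
          (fun m : ℕ => if m % 2 = 0 then m / 2 else (5 * m + 1) / 2)^[k] n = 1 ∧
          (k : ℝ) < 5 * Real.log n}.ncard : ℝ) ≤ 22700 * (N : ℝ) ^ (0.999 : ℝ)) :=
  ⟨fun c _ hc => Helper648.FX.tendsto_main c hc, fun N hN => Helper648.FX.count_le N hN⟩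

end Pool.Agent.Results.MP_152764_nt.UpToFive
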